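import Pool.Agent.H780.RO.Stm
import Pool.Agent.H780.RG.SPC

/-!
# Project RO, task CONE: the cone over a convex region
-/

set_option autoImplicit false

open MeasureTheory Metric Set Filter Topology InnerProductGeometry

namespace Pool.Agent.H780.RO.CONE

open Pool.Agent.H241R3.FV Pool.Agent.N526.CP Pool.Agent.H780.RG Pool.Agent.H780.RO

variable {n : ℕ}

theorem sq_pos' {X : E n} (hX : ‖X‖ < 1) : 0 < √(1 - ‖X‖ ^ 2) :=
  Real.sqrt_pos.2 (by nlinarith [norm_nonneg X])

theorem inner_lift {c : E (n + 1)} {J : E n →ₗᵢ[ℝ] E (n + 1)} (hc : ‖c‖ = 1)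
    (hJ : ∀ v, inner ℝ (J v) c = 0) (X Y : E n) :
    inner ℝ (lift c J X) (lift c J Y) = √(1 - ‖X‖ ^ 2) * √(1 - ‖Y‖ ^ 2) + inner ℝ X Y := by
  have hJ' : ∀ v, inner ℝ c (J v) = 0 := fun v => by rw [real_inner_comm]; exact hJ v
  have hcc : inner ℝ c c = (1 : ℝ) := by rw [real_inner_self_eq_norm_sq, hc]; norm_num
  unfold lift
  rw [inner_add_left, inner_add_right, inner_add_right, real_inner_smul_left,
    real_inner_smul_right, real_inner_smul_left, real_inner_smul_right, hJ, hJ', hcc,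
    LinearIsometry.inner_map_map]
  ring

theorem inner_lift_c {c : E (n + 1)} {J : E n →ₗᵢ[ℝ] E (n + 1)} (hc : ‖c‖ = 1)
    (hJ : ∀ v, inner ℝ (J v) c = 0) (X : E n) :
    inner ℝ (lift c J X) c = √(1 - ‖X‖ ^ 2) := by
  have hcc : inner ℝ c c = (1 : ℝ) := by rw [real_inner_self_eq_norm_sq, hc]; norm_num
  unfold lift
  rw [inner_add_left, real_inner_smul_left, hJ, hcc]
  ring

theorem norm_lift {c : E (n + 1)} {J : E n →ₗᵢ[ℝ] E (n + 1)} (hc : ‖c‖ = 1)
    (hJ : ∀ v, inner ℝ (J v) c = 0) {X : E n} (hX : ‖X‖ < 1) : ‖lift c J X‖ = 1 := by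
  have h0 : 0 ≤ 1 - ‖X‖ ^ 2 := by nlinarith [norm_nonneg X]
  have h1 : ‖lift c J X‖ ^ 2 = 1 := by
    rw [← real_inner_self_eq_norm_sq, inner_lift hc hJ, Real.mul_self_sqrt h0,
      real_inner_self_eq_norm_sq]
    ring
  have h2 := norm_nonneg (lift c J X)
  nlinarith

theorem lift_eq (c : E (n + 1)) (J : E n →ₗᵢ[ℝ] E (n + 1)) {X : E n} (hX : ‖X‖ < 1) :
    lift c J X = √(1 - ‖X‖ ^ 2) • (c + J (gn X)) := by
  unfold lift gn
  rw [smul_add, map_smul, smul_smul, mul_inv_cancel₀ (sq_pos' hX).ne', one_smul]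

theorem int_eq {F : E n → E n} (hF : CReg F) :
    gn '' (F '' ball 0 1) = interior (gn '' (F '' closedBall 0 1)) := by
  obtain ⟨-, -, -, -, hgi, hig, hgc, hic⟩ := SPC.main n
  have hlt : ∀ X ∈ F '' closedBall 0 1, ‖X‖ < 1 := by
    rintro _ ⟨y, hy, rfl⟩
    exact hF.lt y hy
  have hsub : F '' ball 0 1 ⊆ F '' closedBall 0 1 := image_mono ball_subset_closedBall
  apply Subset.antisymm
  · apply interior_maximal (image_mono hsub)
    have h1 : gn '' (F '' ball 0 1) = ig ⁻¹' (F '' ball 0 1) := by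
      ext Y
      constructor
      · rintro ⟨X, hX, rfl⟩
        rw [mem_preimage, hig X (hlt X (hsub hX))]
        exact hX
      · intro hY
        exact ⟨ig Y, hY, (hgi Y).2⟩
    rw [h1, hF.int]
    exact isOpen_interior.preimage hic
  · intro Y hY
    obtain ⟨X, hX, rfl⟩ := interior_subset hY
    refine ⟨X, ?_, rfl⟩
    rw [hF.int]
    have h2 : IsOpen (ball (0 : E n) 1 ∩ gn ⁻¹' interior (gn '' (F '' closedBall 0 1))) :=
      hgc.isOpen_inter_preimage isOpen_ball isOpen_interior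
    have h3 : ball (0 : E n) 1 ∩ gn ⁻¹' interior (gn '' (F '' closedBall 0 1)) ⊆
        F '' closedBall 0 1 := by
      rintro Z ⟨hZ1, hZ2⟩
      obtain ⟨W, hW, hWZ⟩ := interior_subset hZ2
      have hZ1' : ‖Z‖ < 1 := by simpa using hZ1
      have : W = Z := by rw [← hig W (hlt W hW), ← hig Z hZ1', hWZ]
      rw [← this]
      exact hW
    exact interior_maximal h3 h2 ⟨by simpa using hlt X hX, hY⟩

theorem main : S_CONE := by
  intro n c J hc hJ
  refine ⟨fun X hX => ⟨norm_lift hc hJ hX, ?_⟩, fun X Y hX hY => ?_, fun F hF => ⟨?_, ?_, ?_⟩⟩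
  · rw [inner_lift_c hc hJ]
    exact sq_pos' hX
  · unfold angle hdist
    rw [norm_lift hc hJ hX, norm_lift hc hJ hY, inner_lift hc hJ]
    norm_num
  · rintro z ⟨t, ht, X, ⟨y, hy, rfl⟩, rfl⟩
    rw [real_inner_smul_left, inner_lift_c hc hJ]
    exact mul_pos ht (sq_pos' (hF.lt y (ball_subset_closedBall hy)))
  · rintro z ⟨r, hr, X, hX, rfl⟩ w hw s t hs ht
    have hlt : ∀ X ∈ F '' closedBall 0 1, ‖X‖ < 1 := by
      rintro _ ⟨y, hy, rfl⟩
      exact hF.lt y hy
    have hsub : F '' ball 0 1 ⊆ F '' closedBall 0 1 := image_mono ball_subset_closedBall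
    have hX1 := hlt X (hsub hX)
    have hw1 := hlt w hw
    have ha : 0 < s * r * √(1 - ‖X‖ ^ 2) := mul_pos (mul_pos hs hr) (sq_pos' hX1)
    have hb : 0 ≤ t * √(1 - ‖w‖ ^ 2) := mul_nonneg ht (sq_pos' hw1).le
    set a := s * r * √(1 - ‖X‖ ^ 2) with ha'
    set b := t * √(1 - ‖w‖ ^ 2) with hb'
    have hab : 0 < a + b := by linarith
    have hYi : gn X ∈ interior (gn '' (F '' closedBall 0 1)) := by
      rw [← int_eq hF]
      exact mem_image_of_mem _ hX
    have hwi : gn w ∈ gn '' (F '' closedBall 0 1) := mem_image_of_mem _ hw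
    have hcomb : (a / (a + b)) • gn X + (b / (a + b)) • gn w ∈
        interior (gn '' (F '' closedBall 0 1)) :=
      hF.convex.combo_interior_self_mem_interior hYi hwi (div_pos ha hab)
        (div_nonneg hb hab.le) (by field_simp)
    rw [← int_eq hF] at hcomb
    obtain ⟨V, hV, hVeq⟩ := hcomb
    have hV1 := hlt V (hsub hV)
    refine ⟨(a + b) * (√(1 - ‖V‖ ^ 2))⁻¹, mul_pos hab (inv_pos.2 (sq_pos' hV1)), V, hV, ?_⟩
    have ea : (a + b) * (a / (a + b)) = a := by field_simp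
    have eb : (a + b) * (b / (a + b)) = b := by field_simp
    rw [lift_eq c J hX1, lift_eq c J hw1, lift_eq c J hV1, smul_smul, smul_smul, smul_smul,
      smul_smul, mul_assoc (a + b), inv_mul_cancel₀ (sq_pos' hV1).ne', mul_one, hVeq, map_add,
      map_smul, map_smul, ← ha', ← hb', smul_add, smul_add, smul_add, smul_add,
      smul_smul, smul_smul, ea, eb, add_smul]
    abel
  · rintro x ⟨t, ht, X, ⟨y, hy, rfl⟩, h⟩
    have hx : (x : E n) ∈ closedBall (0 : E n) 1 := sphere_subset_closedBall x.2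
    have h1 := hF.lt x hx
    have hy' := ball_subset_closedBall hy
    have h2 := hF.lt y hy'
    have h3 : t = 1 := by
      have := congrArg norm h
      rw [norm_smul, norm_lift hc hJ h1, norm_lift hc hJ h2, Real.norm_of_nonneg ht.le] at this
      linarith
    rw [h3, one_smul] at h
    have h4 : √(1 - ‖F x‖ ^ 2) = √(1 - ‖F y‖ ^ 2) := by
      rw [← inner_lift_c hc hJ, ← inner_lift_c hc hJ, h]
    have h5 : J (F x) = J (F y) := by
      unfold lift at h
      rw [h4] at h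
      exact add_left_cancel h
    have h6 : (x : E n) = y := hF.inj hx hy' (J.injective h5)
    have h7 : ‖(x : E n)‖ = 1 := by simp
    have h8 : ‖y‖ < 1 := by simpa using hy
    rw [h6] at h7
    linarith

end Pool.Agent.H780.RO.CONE
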