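import Pool.Agent.H780.RO.Stm

/-!
# ARC: no shortcuts between points of the boundary of a convex region
-/

set_option autoImplicit false

open MeasureTheory Metric Set Filter Topology InnerProductGeometry

namespace Pool.Agent.H780.RO.ARC

open Pool.Agent.H241R3.FV Pool.Agent.N526.CP Pool.Agent.H780.RG

/-- the segment from the intersection point with the equator to `a` -/
theorem half {N : ℕ} {M : Type} [MetricSpace M] {ι : E N → M} {m c a b : E N} {I : Set (E N)}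
    (ha : ‖a‖ = 1) (hb : ‖b‖ = 1) (hab : a ≠ b) (ham : 0 ≤ inner ℝ a m) (hac : 0 < inner ℝ a c)
    (hI : ∀ z ∈ I, 0 < inner ℝ z c)
    (hIa : ∀ z ∈ I, ∀ s t : ℝ, 0 < s → 0 ≤ t → s • z + t • a ∈ I)
    (hIb : ∀ z ∈ I, ∀ s t : ℝ, 0 < s → 0 ≤ t → s • z + t • b ∈ I)
    (haI : a ∉ I) {P Q : ℝ} (hP : 0 ≤ P) (hQ : 0 ≤ Q) {v : E N} (hv : v = Q • a - P • b)
    (hv0 : v ≠ 0) (hvm : inner ℝ v m = 0)
    (H : ∀ x y : E N, ‖x‖ = 1 → ‖y‖ = 1 → 0 ≤ inner ℝ x m → 0 ≤ inner ℝ y m → x ≠ -y →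
      (∀ s t : ℝ, 0 ≤ s → 0 ≤ t → s • x + t • y ∉ I) → dist (ι x) (ι y) ≤ angle x y) :
    dist (ι (‖v‖⁻¹ • v)) (ι a) ≤ angle v a := by
  have hn : 0 < ‖v‖ := norm_pos_iff.2 hv0
  have hw : 0 < ‖v‖⁻¹ := inv_pos.2 hn
  have hx1 : ‖(‖v‖⁻¹ • v)‖ = 1 := by
    rw [norm_smul, norm_inv, norm_norm, inv_mul_cancel₀ hn.ne']
  have hxm : inner ℝ (‖v‖⁻¹ • v) m = 0 := by
    rw [inner_smul_left, hvm, mul_zero]
  obtain ⟨w, hwv⟩ : ∃ w, w = ‖v‖ := ⟨_, rfl⟩
  rw [← hwv] at hn hw hx1 hxm ⊢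
  have h1 := H (w⁻¹ • v) a hx1 ha hxm.ge ham ?_ ?_
  · rwa [angle_smul_left_of_pos _ _ hw] at h1
  · intro hx
    have h2 : v = -(w • a) := by
      have h : w • (w⁻¹ • v) = w • (-a) := by rw [hx]
      rwa [smul_smul, mul_inv_cancel₀ hn.ne', one_smul, smul_neg] at h
    have h3 : P • b = (Q + w) • a := by
      have h4 : Q • a - P • b = -(w • a) := by rw [← hv]; exact h2
      calc P • b = Q • a - (Q • a - P • b) := by abel
        _ = Q • a + w • a := by rw [h4]; abel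
        _ = (Q + w) • a := by rw [add_smul]
    have h5 : P = Q + w := by
      have h := congrArg norm h3
      rwa [norm_smul, norm_smul, ha, hb, mul_one, mul_one, Real.norm_of_nonneg hP,
        Real.norm_of_nonneg (by linarith)] at h
    rw [← h5] at h3
    exact hab (smul_right_injective _ (by linarith : P ≠ 0) h3).symm
  · intro s t hs ht hz
    have h4 : s • (w⁻¹ • v) + t • a + (s * w⁻¹ * P) • b = (s * w⁻¹ * Q + t) • a := by
      rw [hv]
      module
    have h5 := hIb _ hz 1 (s * w⁻¹ * P) one_pos (by positivity)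
    rw [one_smul, h4] at h5
    obtain ⟨g, hg⟩ : ∃ g, g = s * w⁻¹ * Q + t := ⟨_, rfl⟩
    rw [← hg] at h5
    have h6 := hI _ h5
    rw [inner_smul_left] at h6
    have hg0 : 0 < g := by
      by_contra hneg
      have h7 : g * inner ℝ a c ≤ 0 := mul_nonpos_of_nonpos_of_nonneg (not_lt.1 hneg) hac.le
      simp only [conj_trivial] at h6
      linarith
    have h7 := hIa _ h5 g⁻¹ 0 (inv_pos.2 hg0) le_rfl
    rw [smul_smul, inv_mul_cancel₀ hg0.ne', one_smul, zero_smul, add_zero] at h7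
    exact haI h7

/-- the angles add up to `π` -/
theorem angle_sum {N : ℕ} {a b v : E N} (ha : a ≠ 0) (hb : b ≠ 0) {P Q : ℝ} (hP : 0 ≤ P)
    (hQ : 0 ≤ Q) (hv : v = Q • a - P • b) (hPQ : ¬ (P = 0 ∧ Q = 0)) :
    angle v a + angle a b + angle (-v) b = Real.pi := by
  rcases hP.eq_or_lt with h | hP0
  · have hQ0 : 0 < Q := lt_of_le_of_ne hQ fun h' => hPQ ⟨h.symm, h'.symm⟩
    have e : v = Q • a := by rw [hv, ← h, zero_smul, sub_zero]
    rw [e, ← smul_neg, angle_smul_left_of_pos _ _ hQ0, angle_smul_left_of_pos _ _ hQ0,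
      angle_self ha, angle_neg_left]
    ring
  rcases hQ.eq_or_lt with h | hQ0
  · have e : v = P • (-b) := by rw [hv, ← h, zero_smul, zero_sub, smul_neg]
    rw [e, ← smul_neg, neg_neg, angle_smul_left_of_pos _ _ hP0, angle_smul_left_of_pos _ _ hP0,
      angle_self hb, angle_neg_left, angle_comm b a]
    ring
  · have h1 := angle_add_angle_sub_add_angle_sub_eq_pi (Q • a)
      (y := P • b) (smul_ne_zero hP0.ne' hb)
    have e2 : P • b - Q • a = -v := by rw [hv]; abel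
    rw [← hv, e2, angle_smul_left_of_pos _ _ hQ0, angle_smul_left_of_pos _ _ hQ0,
      angle_smul_left_of_pos _ _ hP0, angle_smul_right_of_pos _ _ hP0] at h1
    rw [angle_comm v a, angle_comm (-v) b]
    linarith

theorem main : S_ARC := by
  intro N M _ ι m c a b I ha hb ham hbm hac hbc hI hIab haI hbI H5 H6
  have ha0 : a ≠ 0 := by
    rintro rfl
    rw [norm_zero] at ha
    exact zero_ne_one ha
  have hb0 : b ≠ 0 := by
    rintro rfl
    rw [norm_zero] at hb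
    exact zero_ne_one hb
  by_cases hab : a = b
  · rw [hab, angle_self hb0]
    exact dist_nonneg
  obtain ⟨P, hP⟩ : ∃ P : ℝ, P = inner ℝ a m := ⟨_, rfl⟩
  obtain ⟨Q, hQ⟩ : ∃ Q : ℝ, Q = inner ℝ b m := ⟨_, rfl⟩
  have hP0 : 0 ≤ P := by rw [hP]; exact ham
  have hQ0 : 0 ≤ Q := by rw [hQ]; exact hbm
  by_cases hPQ : P = 0 ∧ Q = 0
  · exact H6 a b ha hb (by rw [← hP]; exact hPQ.1) (by rw [← hQ]; exact hPQ.2)
  obtain ⟨v, hv⟩ : ∃ v, v = Q • a - P • b := ⟨_, rfl⟩
  have hv0 : v ≠ 0 := by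
    intro h0
    rw [hv, sub_eq_zero] at h0
    have h1 : Q = P := by
      have h := congrArg norm h0
      rwa [norm_smul, norm_smul, ha, hb, mul_one, mul_one, Real.norm_of_nonneg hQ0,
        Real.norm_of_nonneg hP0] at h
    have hP' : P ≠ 0 := fun h => hPQ ⟨h, by rw [h1]; exact h⟩
    rw [h1] at h0
    exact hab (smul_right_injective _ hP' h0)
  have hvm : inner ℝ v m = 0 := by
    rw [hv, inner_sub_left, inner_smul_left, inner_smul_left, ← hP, ← hQ]
    simp only [conj_trivial]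
    ring
  have hneg : -v = P • b - Q • a := by rw [hv]; abel
  have h1 := half ha hb hab ham hac hI (fun z hz s t hs ht => (hIab z hz s t hs ht).1)
    (fun z hz s t hs ht => (hIab z hz s t hs ht).2) haI hP0 hQ0 hv hv0 hvm H5
  have h2 := half hb ha (Ne.symm hab) hbm hbc hI (fun z hz s t hs ht => (hIab z hz s t hs ht).2)
    (fun z hz s t hs ht => (hIab z hz s t hs ht).1) hbI hQ0 hP0 hneg (neg_ne_zero.2 hv0)
    (by rw [inner_neg_left, hvm, neg_zero]) H5
  have hn : 0 < ‖v‖ := norm_pos_iff.2 hv0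
  obtain ⟨x, hx⟩ : ∃ x, x = ‖v‖⁻¹ • v := ⟨_, rfl⟩
  have hx1 : ‖x‖ = 1 := by
    rw [hx, norm_smul, norm_inv, norm_norm, inv_mul_cancel₀ hn.ne']
  have hx0 : x ≠ 0 := by
    rintro rfl
    rw [norm_zero] at hx1
    exact zero_ne_one hx1
  have hxm : inner ℝ x m = 0 := by
    rw [hx, inner_smul_left, hvm, mul_zero]
  rw [← hx] at h1
  rw [norm_neg, smul_neg, ← hx] at h2
  have h3 := H6 x (-x) hx1 (by rw [norm_neg]; exact hx1) hxm (by rw [inner_neg_left, hxm, neg_zero])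
  rw [angle_self_neg_of_nonzero hx0] at h3
  have h4 : dist (ι x) (ι (-x)) ≤ dist (ι x) (ι a) + dist (ι a) (ι b) + dist (ι b) (ι (-x)) :=
    dist_triangle4 _ _ _ _
  have h5 := angle_sum ha0 hb0 hP0 hQ0 hv hPQ
  rw [dist_comm (ι b) (ι (-x))] at h4
  linarith

end Pool.Agent.H780.RO.ARC
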