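import Pool.Agent.H780.RO.Asm

/-!
# Project RO: antipodal points
-/

set_option autoImplicit false

open MeasureTheory Metric Set Filter Topology InnerProductGeometry

namespace Pool.Agent.H780.RO

open Pool.Agent.H241R3.FV Pool.Agent.N526.CP Pool.Agent.H780.RG

/-- There are no shortcuts if antipodal points of the boundary sphere have distance at least `π`. -/
theorem nonshort {N : ℕ} {M : Type} [MetricSpace M] {ι : E N → M} {m : E N} {I : Set (E N)}
    (hI : ∀ z ∈ I, 0 < inner ℝ z m)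
    (hι : ∀ x y : E N, ‖x‖ = 1 → ‖y‖ = 1 → 0 ≤ inner ℝ x m → 0 ≤ inner ℝ y m → x ≠ -y →
      (∀ s t : ℝ, 0 ≤ s → 0 ≤ t → s • x + t • y ∉ I) → dist (ι x) (ι y) ≤ angle x y)
    (hanti : ∀ x : E N, ‖x‖ = 1 → inner ℝ x m = 0 → Real.pi ≤ dist (ι x) (ι (-x)))
    (x y : E N) (hx : ‖x‖ = 1) (hy : ‖y‖ = 1) (hxm : inner ℝ x m = 0) (hym : inner ℝ y m = 0) :
    angle x y ≤ dist (ι x) (ι y) := by
  by_cases hxy : y = x
  · rw [hxy, angle_self (by
      intro h
      rw [h, norm_zero] at hx
      exact zero_ne_one hx)]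
    exact dist_nonneg
  · have h1 := hanti x hx hxm
    have h2 := dist_triangle (ι x) (ι y) (ι (-x))
    have h3 := hι y (-x) hy (by rw [norm_neg, hx]) hym.ge (by rw [inner_neg_left, hxm, neg_zero])
      (by rwa [neg_neg]) (fun s t _ _ hz => by
        have h4 := hI _ hz
        rw [inner_add_left, real_inner_smul_left, real_inner_smul_left, inner_neg_left, hxm, hym]
          at h4
        simp at h4)
    rw [angle_neg_right, angle_comm y x] at h3
    linarith

/-- the cone over the interior of a region in the open hemisphere -/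
theorem cone_pos {n : ℕ} {F : E n → E n} {c m : E (n + 1)} {J : E n →ₗᵢ[ℝ] E (n + 1)}
    (h : ∀ y ∈ ball (0 : E n) 1, 0 < inner ℝ (lift c J (F y)) m) :
    ∀ z ∈ cone F c J, 0 < inner ℝ z m := by
  rintro _ ⟨t, ht, _, ⟨y, hy, rfl⟩, rfl⟩
  rw [real_inner_smul_left]
  exact mul_pos ht (h y hy)

end Pool.Agent.H780.RO
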