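import Pool.Agent.H780.RO.Stm

/-!
# Project RO: assembly
-/

set_option autoImplicit false

open MeasureTheory Metric Set Filter Topology InnerProductGeometry

namespace Pool.Agent.H780.RO

open Pool.Agent.H241R3.FV Pool.Agent.N526.CP Pool.Agent.H780.RG

/-- The distances in `K` of the boundary points are at least the distances in the sphere. -/
theorem dist_le (hC : S_CONE) (hA : S_ARC) {n : ℕ} {K M : Type} [MetricSpace K] [MetricSpace M]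
    {bd : Sph n → K} {F : E n → E n} (hF : CReg F) {c m : E (n + 1)} {J : E n →ₗᵢ[ℝ] E (n + 1)}
    {j : K → M} {ι : E (n + 1) → M} (hc : ‖c‖ = 1) (hJ : ∀ v, inner ℝ (J v) c = 0)
    (hsub : ∀ x : Sph n, 0 ≤ inner ℝ (lift c J (F x)) m)
    (hj : ∀ x y, dist (j x) (j y) ≤ dist x y)
    (hι : ∀ x y : E (n + 1), ‖x‖ = 1 → ‖y‖ = 1 → 0 ≤ inner ℝ x m → 0 ≤ inner ℝ y m → x ≠ -y →
      (∀ s t : ℝ, 0 ≤ s → 0 ≤ t → s • x + t • y ∉ cone F c J) → dist (ι x) (ι y) ≤ angle x y)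
    (hg : ∀ x : Sph n, ι (lift c J (F x)) = j (bd x))
    (hno : ∀ x y : E (n + 1), ‖x‖ = 1 → ‖y‖ = 1 → inner ℝ x m = 0 → inner ℝ y m = 0 →
      angle x y ≤ dist (ι x) (ι y)) (x y : Sph n) :
    hdist (F x) (F y) ≤ dist (bd x) (bd y) := by
  obtain ⟨c1, c2, c3⟩ := hC n c J hc hJ
  obtain ⟨k1, k2, k3⟩ := c3 F hF
  have hx1 : ∀ x : Sph n, ‖F x‖ < 1 := fun x => hF.lt x (sphere_subset_closedBall x.2)
  have hxD : ∀ x : Sph n, F x ∈ F '' closedBall 0 1 := fun x => ⟨x, sphere_subset_closedBall x.2, rfl⟩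
  have h := hA (n + 1) M ι m c (lift c J (F x)) (lift c J (F y)) (cone F c J)
    (c1 _ (hx1 x)).1 (c1 _ (hx1 y)).1 (hsub x) (hsub y) (c1 _ (hx1 x)).2 (c1 _ (hx1 y)).2 k1
    (fun z hz s t hs ht => ⟨k2 z hz _ (hxD x) s t hs ht, k2 z hz _ (hxD y) s t hs ht⟩)
    (k3 x) (k3 y) hι hno
  rw [c2 _ _ (hx1 x) (hx1 y), hg, hg] at h
  exact h.trans (hj _ _)

end Pool.Agent.H780.RO
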