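import Pool.Agent.H780.RG.StmC

/-!
# Project RO (helper780): fillings of the round sphere which are round outside a convex region
-/

set_option autoImplicit false

open MeasureTheory Metric Set Filter Topology InnerProductGeometry

namespace Pool.Agent.H780.RO

open Pool.Agent.H241R3.FV Pool.Agent.N526.CP Pool.Agent.H780.RG

/-- The point of the unit sphere of `E (n + 1)`, in the open hemisphere with pole `c`, with orthogonal
projection `X`; `J` is an isometry onto the orthogonal complement of `c`. -/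
noncomputable def lift {n : ℕ} (c : E (n + 1)) (J : E n →ₗᵢ[ℝ] E (n + 1)) (X : E n) : E (n + 1) :=
  √(1 - ‖X‖ ^ 2) • c + J X

/-- The open cone over the interior of the region `F '' closedBall 0 1`. -/
def cone {n : ℕ} (F : E n → E n) (c : E (n + 1)) (J : E n →ₗᵢ[ℝ] E (n + 1)) : Set (E (n + 1)) :=
  {z | ∃ t : ℝ, 0 < t ∧ ∃ X ∈ F '' ball 0 1, z = t • lift c J X}

/-- CONE: properties of the cone over a convex region -/
def S_CONE : Prop := ∀ (n : ℕ) (c : E (n + 1)) (J : E n →ₗᵢ[ℝ] E (n + 1)), ‖c‖ = 1 →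
  (∀ v, inner ℝ (J v) c = 0) →
  (∀ X : E n, ‖X‖ < 1 → ‖lift c J X‖ = 1 ∧ 0 < inner ℝ (lift c J X) c) ∧
  (∀ X Y : E n, ‖X‖ < 1 → ‖Y‖ < 1 → angle (lift c J X) (lift c J Y) = hdist X Y) ∧
  ∀ F : E n → E n, CReg F → (∀ z ∈ cone F c J, 0 < inner ℝ z c) ∧
    (∀ z ∈ cone F c J, ∀ w ∈ F '' closedBall 0 1, ∀ s t : ℝ, 0 < s → 0 ≤ t →
      s • z + t • lift c J w ∈ cone F c J) ∧
    ∀ x : Sph n, lift c J (F x) ∉ cone F c J

/-- ARC: shortcuts -/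
def S_ARC : Prop := ∀ (N : ℕ) (M : Type) [MetricSpace M] (ι : E N → M) (m c a b : E N)
  (I : Set (E N)), ‖a‖ = 1 → ‖b‖ = 1 → 0 ≤ inner ℝ a m → 0 ≤ inner ℝ b m → 0 < inner ℝ a c →
  0 < inner ℝ b c → (∀ z ∈ I, 0 < inner ℝ z c) →
  (∀ z ∈ I, ∀ s t : ℝ, 0 < s → 0 ≤ t → s • z + t • a ∈ I ∧ s • z + t • b ∈ I) → a ∉ I → b ∉ I →
  (∀ x y : E N, ‖x‖ = 1 → ‖y‖ = 1 → 0 ≤ inner ℝ x m → 0 ≤ inner ℝ y m → x ≠ -y →
    (∀ s t : ℝ, 0 ≤ s → 0 ≤ t → s • x + t • y ∉ I) → dist (ι x) (ι y) ≤ angle x y) →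
  (∀ x y : E N, ‖x‖ = 1 → ‖y‖ = 1 → inner ℝ x m = 0 → inner ℝ y m = 0 →
    angle x y ≤ dist (ι x) (ι y)) →
  angle a b ≤ dist (ι a) (ι b)

end Pool.Agent.H780.RO
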